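import Pool.Agent.Helper71.E5.WStmts
import Pool.Agent.Helper36.E5.LG
import Pool.Agent.Helper35.E5.Base

/-! MP_efd95c_co, wheels: no two adjacent kinks. -/

set_option autoImplicit false

open scoped MeasureTheory ENNReal
open Complex

namespace E5

theorem tri_arc {x z s h : ℝ} (hx : 0 ≤ x) (hz : 0 ≤ z) (hs : 0 ≤ s) (hs1 : s ≤ 1) (hh : 0 ≤ h)
    (hsh : h ^ 2 = 1 - s ^ 2) (H : x ^ 2 + z ^ 2 + 2 * x * z * h ≤ s ^ 2) :
    Real.arcsin x + Real.arcsin z ≤ Real.arcsin s := by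
  have hpi := Real.pi_pos
  have hxzh : 0 ≤ 2 * x * z * h := by positivity
  have hx1 : x ≤ 1 := by nlinarith
  have hz1 : z ≤ 1 := by nlinarith
  have a0 : 0 ≤ Real.arcsin x := Real.arcsin_nonneg.mpr hx
  have b0 : 0 ≤ Real.arcsin z := Real.arcsin_nonneg.mpr hz
  have d0 : 0 ≤ Real.arcsin s := Real.arcsin_nonneg.mpr hs
  have d1 : Real.arcsin s ≤ Real.pi / 2 := Real.arcsin_le_pi_div_two s
  have sa : Real.sin (Real.arcsin x) = x := Real.sin_arcsin (by linarith) hx1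
  have sb : Real.sin (Real.arcsin z) = z := Real.sin_arcsin (by linarith) hz1
  have sd : Real.sin (Real.arcsin s) = s := Real.sin_arcsin (by linarith) hs1
  have cd : Real.cos (Real.arcsin s) = h := by
    rw [Real.cos_arcsin, ← hsh, Real.sqrt_sq hh]
  have hab : Real.arcsin x + Real.arcsin z ≤ Real.pi / 2 := by
    have h1 : Real.arcsin x ≤ Real.pi / 2 - Real.arcsin z := by
      rw [← Real.arccos_eq_pi_div_two_sub_arcsin,
        Real.arcsin_le_iff_le_sin ⟨by linarith, hx1⟩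
          ⟨by linarith [Real.arccos_nonneg z], Real.arccos_le_pi_div_two.mpr hz⟩,
        Real.sin_arccos]
      have h9 : x ^ 2 ≤ 1 - z ^ 2 := by nlinarith
      exact (le_abs_self x).trans (Real.abs_le_sqrt h9)
    linarith
  by_contra hcon
  rw [not_le] at hcon
  have h1 : s < Real.sin (Real.arcsin x + Real.arcsin z) := by
    rw [← sd]
    conv_lhs => rw [sd]
    have := Real.sin_lt_sin_of_lt_of_le_pi_div_two (by linarith) hab hcon
    rwa [sd] at this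
  have h2 : Real.cos (Real.arcsin x + Real.arcsin z) ≤ h := by
    rw [← cd]
    exact Real.cos_le_cos_of_nonneg_of_le_pi d0 (by linarith) hcon.le
  have h3 : Real.sin (Real.arcsin x + Real.arcsin z) ^ 2 = x ^ 2 + z ^ 2 +
      2 * x * z * Real.cos (Real.arcsin x + Real.arcsin z) := by
    rw [Real.sin_add, Real.cos_add, sa, sb]
    have e1 := Real.sin_sq_add_cos_sq (Real.arcsin x)
    have e2 := Real.sin_sq_add_cos_sq (Real.arcsin z)
    rw [sa] at e1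
    rw [sb] at e2
    linear_combination (z ^ 2) * e1 + (x ^ 2) * e2
  have h4 := mul_le_mul_of_nonneg_left h2 (mul_nonneg (mul_nonneg zero_le_two hx) hz)
  nlinarith

/-- the algebra of the lens: `D = w - u`, `P = o - (u + w) / 2`, `A`, `B` the two centres minus
`(u + w) / 2` -/
theorem lens_alg {d1 d2 p1 p2 a1 a2 b1 b2 : ℝ} (hD : d1 ^ 2 + d2 ^ 2 ≠ 0)
    (h1 : (d1 / 2 + a1) ^ 2 + (d2 / 2 + a2) ^ 2 = 1) (h2 : (d1 / 2 - a1) ^ 2 + (d2 / 2 - a2) ^ 2 = 1)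
    (h3 : (d1 / 2 + b1) ^ 2 + (d2 / 2 + b2) ^ 2 = 1) (h4 : (d1 / 2 - b1) ^ 2 + (d2 / 2 - b2) ^ 2 = 1)
    (hne : (a1 - b1) ^ 2 + (a2 - b2) ^ 2 ≠ 0) (o1 : (p1 - a1) ^ 2 + (p2 - a2) ^ 2 ≤ 1)
    (o2 : (p1 - b1) ^ 2 + (p2 - b2) ^ 2 ≤ 1) :
    0 ≤ (d1 ^ 2 + d2 ^ 2) / 4 - (p1 ^ 2 + p2 ^ 2) ∧
    (1 - (d1 ^ 2 + d2 ^ 2) / 4) * (((d1 / 2 + p1) ^ 2 + (d2 / 2 + p2) ^ 2) *
      ((d1 / 2 - p1) ^ 2 + (d2 / 2 - p2) ^ 2)) ≤
      ((d1 ^ 2 + d2 ^ 2) / 4 - (p1 ^ 2 + p2 ^ 2)) ^ 2 := by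
  have hDA : d1 * a1 + d2 * a2 = 0 := by linarith
  have hDB : d1 * b1 + d2 * b2 = 0 := by linarith
  have hA : a1 ^ 2 + a2 ^ 2 = 1 - (d1 ^ 2 + d2 ^ 2) / 4 := by linarith
  have hB : b1 ^ 2 + b2 ^ 2 = 1 - (d1 ^ 2 + d2 ^ 2) / 4 := by linarith
  have hcr : a1 * b2 - a2 * b1 = 0 := by
    have e1 : d1 * (a1 * b2 - a2 * b1) = 0 := by linear_combination b2 * hDA - a2 * hDB
    have e2 : d2 * (a1 * b2 - a2 * b1) = 0 := by linear_combination a1 * hDB - b1 * hDA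
    by_contra hc
    rcases mul_eq_zero.1 e1 with h | h
    · rcases mul_eq_zero.1 e2 with h' | h'
      · apply hD; rw [h, h']; ring
      · exact hc h'
    · exact hc h
  have hsum : (a1 + b1) ^ 2 + (a2 + b2) ^ 2 = 0 := by
    have e1 : ((a1 + b1) ^ 2 + (a2 + b2) ^ 2) * ((a1 - b1) ^ 2 + (a2 - b2) ^ 2) = 0 := by
      have e2 : (a1 + b1) * (a1 - b1) + (a2 + b2) * (a2 - b2) = 0 := by linear_combination hA - hB
      linear_combination (4 * (a1 * b2 - a2 * b1)) * hcr +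
        ((a1 + b1) * (a1 - b1) + (a2 + b2) * (a2 - b2)) * e2
    rcases mul_eq_zero.1 e1 with h | h
    · exact h
    · exact absurd h hne
  have hb1 : b1 = -a1 := by
    have e1 : (a1 + b1) ^ 2 = 0 :=
      le_antisymm (by linarith [sq_nonneg (a2 + b2)]) (sq_nonneg _)
    have e2 : a1 + b1 = 0 := pow_eq_zero_iff (two_ne_zero) |>.1 e1
    linarith
  have hb2 : b2 = -a2 := by
    have e1 : (a2 + b2) ^ 2 = 0 :=
      le_antisymm (by linarith [sq_nonneg (a1 + b1)]) (sq_nonneg _)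
    have e2 : a2 + b2 = 0 := pow_eq_zero_iff (two_ne_zero) |>.1 e1
    linarith
  subst hb1 hb2
  have k1 : 2 * (p1 * a1 + p2 * a2) ≤ (d1 ^ 2 + d2 ^ 2) / 4 - (p1 ^ 2 + p2 ^ 2) := by
    linarith
  have k2 : -(2 * (p1 * a1 + p2 * a2)) ≤ (d1 ^ 2 + d2 ^ 2) / 4 - (p1 ^ 2 + p2 ^ 2) := by
    linarith
  have hX : 0 ≤ (d1 ^ 2 + d2 ^ 2) / 4 - (p1 ^ 2 + p2 ^ 2) := by linarith
  refine ⟨hX, ?_⟩
  set X : ℝ := (d1 ^ 2 + d2 ^ 2) / 4 - (p1 ^ 2 + p2 ^ 2) with hXd
  have k3 : (2 * (p1 * a1 + p2 * a2)) ^ 2 ≤ X ^ 2 := sq_le_sq' (by linarith) k1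
  have k4 : ((d1 / 2 + p1) ^ 2 + (d2 / 2 + p2) ^ 2) * ((d1 / 2 - p1) ^ 2 + (d2 / 2 - p2) ^ 2) =
      X ^ 2 + (d1 * p2 - d2 * p1) ^ 2 := by rw [hXd]; ring
  have k5 : (a1 ^ 2 + a2 ^ 2) * (d1 * p2 - d2 * p1) ^ 2 =
      (d1 ^ 2 + d2 ^ 2) * (p1 * a1 + p2 * a2) ^ 2 := by
    linear_combination ((d1 * p2 - d2 * p1) * (a1 * p2 - a2 * p1) -
      (d1 * p1 + d2 * p2) * (a1 * p1 + a2 * p2)) * hDA
  have hA2 : 0 ≤ (d1 ^ 2 + d2 ^ 2) := by positivity
  rw [k4, ← hA]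
  have k6 := mul_le_mul_of_nonneg_left k3 hA2
  have k7 : (a1 ^ 2 + a2 ^ 2) * (X ^ 2 + (d1 * p2 - d2 * p1) ^ 2) =
      (a1 ^ 2 + a2 ^ 2) * X ^ 2 + (d1 ^ 2 + d2 ^ 2) * (p1 * a1 + p2 * a2) ^ 2 := by
    rw [mul_add, k5]
  have k8 : (d1 ^ 2 + d2 ^ 2) * (2 * (p1 * a1 + p2 * a2)) ^ 2 =
      4 * ((d1 ^ 2 + d2 ^ 2) * (p1 * a1 + p2 * a2) ^ 2) := by ring
  have k9 : (a1 ^ 2 + a2 ^ 2) * X ^ 2 = X ^ 2 - (d1 ^ 2 + d2 ^ 2) * X ^ 2 / 4 := by
    rw [hA]; ring
  rw [k7, k9]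
  linarith

theorem dist_sq_re (x y : ℂ) : dist x y ^ 2 = (x.re - y.re) ^ 2 + (x.im - y.im) ^ 2 := by
  rw [Complex.dist_eq, Complex.sq_norm, Complex.normSq_apply, Complex.sub_re, Complex.sub_im]
  ring

/-- a point in the lens of `u`, `w` -/
theorem lens_lg {u w o V V' : ℂ} (h1 : dist u V = 1) (h2 : dist w V = 1) (h3 : dist u V' = 1)
    (h4 : dist w V' = 1) (hV : V ≠ V') (huw : u ≠ w) (o1 : dist o V ≤ 1) (o2 : dist o V' ≤ 1) :
    lg u o + lg o w ≤ lg u w := by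
  have q1 := dist_sq_re u V
  have q2 := dist_sq_re w V
  have q3 := dist_sq_re u V'
  have q4 := dist_sq_re w V'
  have q5 := dist_sq_re o V
  have q6 := dist_sq_re o V'
  have q7 := dist_sq_re u o
  have q8 := dist_sq_re o w
  have q9 := dist_sq_re u w
  have r5 : dist o V ^ 2 ≤ 1 := pow_le_one₀ dist_nonneg o1
  have r6 : dist o V' ^ 2 ≤ 1 := pow_le_one₀ dist_nonneg o2
  rw [h1] at q1
  rw [h2] at q2
  rw [h3] at q3
  rw [h4] at q4
  have hD : (w.re - u.re) ^ 2 + (w.im - u.im) ^ 2 ≠ 0 := by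
    have : 0 < dist u w := dist_pos.2 huw
    have h5 : 0 < dist u w ^ 2 := by positivity
    rw [q9] at h5
    have e : (w.re - u.re) ^ 2 + (w.im - u.im) ^ 2 = (u.re - w.re) ^ 2 + (u.im - w.im) ^ 2 := by
      ring
    rw [e]
    exact h5.ne'
  have hVV : (V.re - V'.re) ^ 2 + (V.im - V'.im) ^ 2 ≠ 0 := by
    have : 0 < dist V V' := dist_pos.2 hV
    have h5 : 0 < dist V V' ^ 2 := by positivity
    rw [dist_sq_re] at h5
    exact h5.ne'
  have key := lens_alg (d1 := w.re - u.re) (d2 := w.im - u.im)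
    (p1 := o.re - (u.re + w.re) / 2) (p2 := o.im - (u.im + w.im) / 2)
    (a1 := V.re - (u.re + w.re) / 2) (a2 := V.im - (u.im + w.im) / 2)
    (b1 := V'.re - (u.re + w.re) / 2) (b2 := V'.im - (u.im + w.im) / 2) hD
    (by linear_combination -q1) (by linear_combination -q2) (by linear_combination -q3)
    (by linear_combination -q4)
    (by
      have e : (V.re - (u.re + w.re) / 2 - (V'.re - (u.re + w.re) / 2)) ^ 2 +
        (V.im - (u.im + w.im) / 2 - (V'.im - (u.im + w.im) / 2)) ^ 2 =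
        (V.re - V'.re) ^ 2 + (V.im - V'.im) ^ 2 := by ring
      rw [e]
      exact hVV)
    (by
      have e : (o.re - (u.re + w.re) / 2 - (V.re - (u.re + w.re) / 2)) ^ 2 +
        (o.im - (u.im + w.im) / 2 - (V.im - (u.im + w.im) / 2)) ^ 2 = dist o V ^ 2 := by
        rw [q5]; ring
      rw [e]
      exact r5)
    (by
      have e : (o.re - (u.re + w.re) / 2 - (V'.re - (u.re + w.re) / 2)) ^ 2 +
        (o.im - (u.im + w.im) / 2 - (V'.im - (u.im + w.im) / 2)) ^ 2 = dist o V' ^ 2 := by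
        rw [q6]; ring
      rw [e]
      exact r6)
  obtain ⟨k1, k2⟩ := key
  have m1 : (w.re - u.re) ^ 2 + (w.im - u.im) ^ 2 = dist u w ^ 2 := by rw [q9]; ring
  have m2 : ((w.re - u.re) / 2 + (o.re - (u.re + w.re) / 2)) ^ 2 +
      ((w.im - u.im) / 2 + (o.im - (u.im + w.im) / 2)) ^ 2 = dist u o ^ 2 := by rw [q7]; ring
  have m3 : ((w.re - u.re) / 2 - (o.re - (u.re + w.re) / 2)) ^ 2 +
      ((w.im - u.im) / 2 - (o.im - (u.im + w.im) / 2)) ^ 2 = dist o w ^ 2 := by rw [q8]; ring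
  rw [m1] at k1 k2
  rw [m2, m3] at k2
  set X : ℝ := dist u w ^ 2 / 4 - ((o.re - (u.re + w.re) / 2) ^ 2 +
    (o.im - (u.im + w.im) / 2) ^ 2) with hX
  have m4 : dist u o ^ 2 + dist o w ^ 2 = dist u w ^ 2 - 2 * X := by
    rw [hX, q7, q8, q9]; ring
  have hs1 : dist u w / (2 * 1) ≤ 1 := by
    have := dist_triangle u V w
    rw [dist_comm V w, h1, h2] at this
    linarith
  have hs0 : 0 ≤ dist u w / (2 * 1) := by positivity
  have hc0 : 0 ≤ 1 - (dist u w / (2 * 1)) ^ 2 := by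
    have := pow_le_one₀ (n := 2) hs0 hs1
    linarith
  set h : ℝ := Real.sqrt (1 - (dist u w / (2 * 1)) ^ 2) with hh
  have hh2 : h ^ 2 = 1 - (dist u w / (2 * 1)) ^ 2 := Real.sq_sqrt hc0
  have hh0 : 0 ≤ h := Real.sqrt_nonneg _
  have k3 : h * (dist u o * dist o w) ≤ X := by
    apply le_of_sq_le_sq _ k1
    have : 1 - dist u w ^ 2 / 4 = h ^ 2 := by rw [hh2]; ring
    rw [this] at k2
    calc (h * (dist u o * dist o w)) ^ 2 = h ^ 2 * (dist u o ^ 2 * dist o w ^ 2) := by ring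
      _ ≤ X ^ 2 := k2
  have key := tri_arc (x := dist u o / (2 * 1)) (z := dist o w / (2 * 1))
    (s := dist u w / (2 * 1)) (h := h) (by positivity) (by positivity) hs0 hs1 hh0 hh2
    (by
      have e : (dist u o / (2 * 1)) ^ 2 + (dist o w / (2 * 1)) ^ 2 +
          2 * (dist u o / (2 * 1)) * (dist o w / (2 * 1)) * h =
          (dist u o ^ 2 + dist o w ^ 2) / 4 + (h * (dist u o * dist o w)) / 2 := by ring
      have e2 : (dist u w / (2 * 1)) ^ 2 = dist u w ^ 2 / 4 := by ring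
      rw [e, m4, e2]
      linarith)
  unfold lg AX.dl
  linarith

theorem e_sub_two_pi_inj {s t : ℝ} (h : AX.e s = AX.e t) (h1 : t ≤ s) (h2 : s < t + Real.pi) :
    s = t := by
  unfold AX.e at h
  rw [Complex.exp_eq_exp_iff_exists_int] at h
  obtain ⟨m, hm⟩ := h
  have h3 : (s : ℂ) = t + m * (2 * Real.pi) := by
    have h4 : ((s : ℂ) - (t + m * (2 * Real.pi))) * I = 0 := by linear_combination hm
    rcases mul_eq_zero.1 h4 with h5 | h5
    · linear_combination h5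
    · exact absurd h5 I_ne_zero
  have h4 : s = t + m * (2 * Real.pi) := by exact_mod_cast h3
  have hpi := Real.pi_pos
  have h5 : (m : ℝ) < 1 := by
    by_contra hc
    rw [not_lt] at hc
    nlinarith
  have h6 : (-1 : ℝ) < m := by
    by_contra hc
    rw [not_lt] at hc
    nlinarith
  have h7 : m = 0 := by
    have a1 : m < 1 := by exact_mod_cast h5
    have a2 : -1 < m := by exact_mod_cast h6
    omega
  rw [h4, h7]
  simp

/-- two adjacent kinks are impossible for four touching circles and one interior point -/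
theorem ADJ (hH : ST_HTEST) (hG : ST_GAP) : ∀ (p q : Fin 5 → ℂ) (gp : ℤ → Fin 5)
    (ap bp : ℤ → ℝ) (gq : ℤ → Fin 5) (aq bq : ℤ → ℝ) (o : Fin 5), MaxPair p q →
    HD p 4 gp ap bp → HD q 5 gq aq bq → (∀ k, aq k < bq k) → (∀ k, gp k ≠ o) →
    ∀ k, ¬ (ap k = bp k ∧ ap (k + 1) = bp (k + 1)) := by
  intro p q gp ap bp gq aq bq o hmax hp hq hfull ho k hk
  obtain ⟨hk0, hk1⟩ := hk
  have hpi := Real.pi_pos
  have hkink : ∀ j, k - 1 < j → j < k + 2 → ap j = bp j := by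
    intro j h1 h2
    rcases (by omega : j = k ∨ j = k + 1) with h | h
    · rw [h]; exact hk0
    · rw [h]; exact hk1
  obtain ⟨g1, g2, g3⟩ := hG 5 p 4 gp ap bp hp (k - 1) (k + 2) (by omega) hkink
  have hper : gp (k + 2 + 1) = gp (k - 1) := by
    have := hp.gper (k - 1)
    rw [← this]
    apply congrArg gp
    push_cast
    ring
  have haper : ap (k + 2 + 1) = ap (k - 1) + 2 * Real.pi := by
    have := hp.aper (k - 1)
    rw [← this]
    apply congrArg ap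
    push_cast
    ring
  have hcor := hp.corner (k + 2)
  have mb : ∀ j, ∀ i, dist (p (gp j) + AX.e (bp j)) (p i) ≤ 1 := by
    intro j
    have h1 := (hp.mem j (bp j) (hp.le j) (by have := hp.ltpi j; linarith)).2 le_rfl
    rw [H35.mem_T, H35.mem_K] at h1
    exact h1
  have hee : ∀ t : ℝ, AX.e (t + 2 * Real.pi) = AX.e t := by
    intro t
    unfold AX.e
    rw [Complex.exp_eq_exp_iff_exists_int]
    exact ⟨1, by push_cast; ring⟩
  have de : ∀ (x : ℂ) (t : ℝ), dist x (x + AX.e t) = 1 := by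
    intro x t
    rw [dist_eq_norm]
    have : x - (x + AX.e t) = -AX.e t := by ring
    rw [this, norm_neg, H35.norm_e]
  have hne : p (gp (k + 2)) ≠ p (gp (k + 2 + 1)) := by
    intro h
    obtain ⟨t, ht⟩ := hp.ginj _ _ (hp.inj h)
    push_cast at ht
    omega
  have hVne : p (gp (k - 1)) + AX.e (bp (k - 1)) ≠ p (gp (k + 2)) + AX.e (bp (k + 2)) := by
    intro h
    rw [hcor, hper, haper, hee] at h
    have h1 : AX.e (bp (k - 1)) = AX.e (ap (k - 1)) := add_left_cancel h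
    have h2 := e_sub_two_pi_inj h1 (hp.le _) (hp.ltpi _)
    have h3 : ∀ j, k - 2 < j → j < k + 2 → ap j = bp j := by
      intro j a1 a2
      rcases (by omega : j = k - 1 ∨ k - 1 < j) with h | h
      · rw [h]; exact h2.symm
      · exact hkink j h a2
    have h4 := (hG 5 p 4 gp ap bp hp (k - 2) (k + 2) (by omega) h3).1
    have h5 : ap (k + 2) = ap (k - 2) + 2 * Real.pi := by
      have := hp.aper (k - 2)
      rw [← this]
      apply congrArg ap
      push_cast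
      ring
    have h6 := hp.ltpi (k - 2)
    linarith
  have key := lens_lg (u := p (gp (k + 2))) (w := p (gp (k + 2 + 1))) (o := p o)
    (V := p (gp (k - 1)) + AX.e (bp (k - 1))) (V' := p (gp (k + 2)) + AX.e (bp (k + 2)))
    (by rw [g3]; exact de _ _) (by rw [hper]; exact de _ _) (de _ _)
    (by rw [hcor]; exact de _ _) hVne hne
    (by rw [dist_comm]; exact mb _ _) (by rw [dist_comm]; exact mb _ _)
  have h9 := hH 5 p q 4 gp ap bp gq aq bq o hmax hp hq hfull rfl ho (k + 2)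
  linarith

end E5
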