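import Pool.Agent.Helper71.E5.WStmts
import Pool.Agent.Helper36.E5.LG
import Pool.Agent.Helper29.E5.ORD
import Pool.Agent.Helper55.E5.HDSHIFT

/-! MP_efd95c_co, wheels: row HTEST (the hub test). -/

set_option autoImplicit false

open scoped MeasureTheory ENNReal
open Complex

namespace E5

theorem ctour_mono {n : ℕ} {p q : Fin n → ℂ} (h : Ctr p q) (l : List (Fin n)) :
    ctour q l ≤ ctour p l := by
  unfold ctour
  generalize l.rotate 1 = l'
  induction l generalizing l' with
  | nil => simp
  | cons x l ih =>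
    cases l' with
    | nil => simp
    | cons y l' =>
      rw [List.zipWith_cons_cons, List.zipWith_cons_cons, List.sum_cons, List.sum_cons]
      exact add_le_add (LG.2.1 _ _ _ _ (h x y)) (ih l')

theorem HTEST (hT : ST_TOURL) (hA : ST_ACT) : ST_HTEST := by
  intro n p q M gp ap bp gq aq bq o hmax hp hq _ hMn ho k
  by_contra hcon
  rw [not_lt] at hcon
  classical
  obtain ⟨m, rfl⟩ : ∃ m, M = m + 2 := ⟨M - 2, by have := hp.two; omega⟩
  have hs := HDSHIFT _ p _ gp ap bp (k + 1) hp
  have hSadm : Adm (fun j => gp (j + (k + 1))) (fun j => ap (j + (k + 1)))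
      (fun j => bp (j + (k + 1)))
      (Finset.univ.filter (fun i => ∃ j : ℤ, gp (j + (k + 1)) = i)) := by
    refine ⟨fun j _ => ?_, fun i hi => ?_⟩
    · rw [Finset.mem_filter]
      exact ⟨Finset.mem_univ _, j, rfl⟩
    · rw [Finset.mem_filter] at hi
      exact hi.2
  have h1 := hA _ p _ _ _ _ hs _ hSadm
  have h2 : lst (fun j => gp (j + (k + 1))) (m + 2)
      (Finset.univ.filter (fun i => ∃ j : ℤ, gp (j + (k + 1)) = i)) =
      List.ofFn (fun j : Fin (m + 2) => gp (((j : ℕ) : ℤ) + (k + 1))) := by
    unfold lst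
    rw [List.filter_eq_self.2]
    · apply List.ext_getElem
      · rw [List.length_map, List.length_range, List.length_ofFn]
      · intro i h3 h4
        rw [List.getElem_ofFn, List.getElem_map, List.getElem_range]
    · intro i hi
      rw [List.mem_map] at hi
      obtain ⟨j, _, hj⟩ := hi
      rw [decide_eq_true_iff, Finset.mem_filter]
      exact ⟨Finset.mem_univ _, _, hj⟩
  rw [h2] at h1
  set G0 : Fin (m + 2) → Fin n := fun j => gp (((j : ℕ) : ℤ) + (k + 1)) with hG0
  have hG0i : Function.Injective G0 := by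
    intro i j hij
    obtain ⟨t, ht⟩ := hp.ginj _ _ hij
    have h3 := i.isLt
    have h4 := j.isLt
    have h5 : t < 1 := by
      by_contra hc
      have : ((m + 2 : ℕ) : ℤ) * 1 ≤ ((m + 2 : ℕ) : ℤ) * t :=
        mul_le_mul_of_nonneg_left (by omega) (by omega)
      omega
    have h6 : -1 < t := by
      by_contra hc
      have : ((m + 2 : ℕ) : ℤ) * t ≤ ((m + 2 : ℕ) : ℤ) * (-1) :=
        mul_le_mul_of_nonneg_left (by omega) (by omega)
      omega
    have h7 : t = 0 := by omega
    subst h7
    apply Fin.ext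
    omega
  have hlast : G0 (Fin.last (m + 1)) = gp k := by
    have := hp.gper k
    rw [← this, hG0]
    show gp (((m + 1 : ℕ) : ℤ) + (k + 1)) = gp (k + ((m + 2 : ℕ) : ℤ))
    apply congrArg gp
    push_cast
    ring
  have h0 : G0 0 = gp (k + 1) := by
    rw [hG0]
    show gp (((0 : ℕ) : ℤ) + (k + 1)) = gp (k + 1)
    apply congrArg gp
    push_cast
    ring
  set G : Fin (m + 3) → Fin n := Fin.snoc G0 o with hG
  have hGc : ∀ j : Fin (m + 2), G j.castSucc = G0 j := fun j => Fin.snoc_castSucc _ _ _
  have hGl : G (Fin.last (m + 2)) = o := Fin.snoc_last _ _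
  have hGi : Function.Injective G := by
    intro i j
    refine Fin.lastCases ?_ (fun i => ?_) i <;> refine Fin.lastCases ?_ (fun j => ?_) j
    · intro _; rfl
    · rw [hGl, hGc]
      intro h
      exact absurd h.symm (ho _)
    · rw [hGl, hGc]
      intro h
      exact absurd h (ho _)
    · rw [hGc, hGc]
      intro h
      rw [hG0i h]
  have h3 := hT n q gq aq bq (List.ofFn G) hq (List.nodup_ofFn.2 hGi)
    (by rw [List.length_ofFn]; omega)
  have h4 := ctour_mono hmax.ctr (List.ofFn G)
  have h5 : ctour p (List.ofFn G) = ctour p (List.ofFn G0) - lg (p (gp k)) (p (gp (k + 1))) +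
      lg (p (gp k)) (p o) + lg (p o) (p (gp (k + 1))) := by
    unfold ctour
    rw [ord_zip, ord_zip, Fin.sum_univ_castSucc]
    have e1 : ∀ i : Fin (m + 1), G (i.castSucc).succ = G0 i.succ := fun i => by
      rw [Fin.succ_castSucc, hGc]
    have e2 : G (Fin.last (m + 1)).succ = o := by
      rw [Fin.succ_last, hGl]
    have e3 : G 0 = gp (k + 1) := by
      have : (0 : Fin (m + 3)) = (0 : Fin (m + 2)).castSucc := rfl
      rw [this, hGc, h0]
    simp only [e1, hGc]
    rw [e2, hGl, e3, hlast, h0]
    ring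
  have h6 := hmax.pos
  linarith

end E5
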