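import Pool.Agent.Helper71.E5.WStmts
import Pool.Agent.Helper36.E5.LG
import Pool.Agent.Helper36.E5.COLL
import Pool.Agent.Helper55.E5.D2
import Pool.Agent.Helper26.E5.EFF

/-! MP_efd95c_co, wheels: row INHUB (the hub lies strictly inside the flat polygon of `p`). -/

set_option autoImplicit false

open scoped MeasureTheory ENNReal
open Complex

namespace E5

theorem crs_aff {A B x y : ℂ} {s t : ℝ} (h : s + t = 1) :
    crs (A - (s • x + t • y)) (B - (s • x + t • y)) =
      s * crs (A - x) (B - x) + t * crs (A - y) (B - y) := by
  have ht : t = 1 - s := by linarith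
  subst ht
  simp only [crs, Complex.mul_im, Complex.conj_re, Complex.conj_im, Complex.sub_re,
    Complex.sub_im, Complex.add_re, Complex.add_im, Complex.real_smul, Complex.mul_re,
    Complex.ofReal_re, Complex.ofReal_im]
  ring

theorem crs_self (x : ℂ) : crs x x = 0 := by
  simp only [crs, Complex.mul_im, Complex.conj_re, Complex.conj_im]
  ring

theorem crs_left (A B : ℂ) : crs (A - A) (B - A) = 0 := by
  simp [crs]

theorem crs_right (A B : ℂ) : crs (A - B) (B - B) = 0 := by
  simp [crs]

theorem crs_rot (A B C : ℂ) : crs (B - A) (C - A) = crs (A - C) (B - C) := by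
  simp only [crs, Complex.mul_im, Complex.conj_re, Complex.conj_im, Complex.sub_re,
    Complex.sub_im]
  ring

/-- points of the flat hull on the line through an edge -/
theorem hull_edge {A B z : ℂ} {S : Set ℂ} (hS : ∀ x ∈ S, x = A ∨ x = B ∨
    0 < crs (A - x) (B - x)) (hz : z ∈ convexHull ℝ S) :
    0 < crs (A - z) (B - z) ∨ z ∈ segment ℝ A B := by
  have hseg : ∀ x ∈ segment ℝ A B, crs (A - x) (B - x) = 0 := by
    rintro x ⟨s, t, _, _, hst, rfl⟩
    rw [crs_aff hst, crs_left, crs_right]
    ring
  have hC : Convex ℝ {x : ℂ | 0 < crs (A - x) (B - x) ∨ x ∈ segment ℝ A B} := by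
    rintro x hx y hy s t hs ht hst
    have hx0 : 0 ≤ crs (A - x) (B - x) := by
      rcases hx with h | h
      · exact h.le
      · exact (hseg x h).ge
    have hy0 : 0 ≤ crs (A - y) (B - y) := by
      rcases hy with h | h
      · exact h.le
      · exact (hseg y h).ge
    by_cases hs0 : s = 0
    · subst hs0
      have : t = 1 := by linarith
      subst this
      rw [zero_smul, one_smul, zero_add]
      exact hy
    by_cases ht0 : t = 0
    · subst ht0
      have : s = 1 := by linarith
      subst this
      rw [zero_smul, one_smul, add_zero]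
      exact hx
    have hs1 : 0 < s := lt_of_le_of_ne hs (Ne.symm hs0)
    have ht1 : 0 < t := lt_of_le_of_ne ht (Ne.symm ht0)
    rcases hx with hx | hx
    · left
      rw [crs_aff hst]
      have := mul_pos hs1 hx
      have := mul_nonneg ht hy0
      linarith
    · rcases hy with hy | hy
      · left
        rw [crs_aff hst]
        have := mul_pos ht1 hy
        have := mul_nonneg hs hx0
        linarith
      · right
        exact convex_segment A B hx hy hs ht hst
  refine convexHull_min (fun x hx => ?_) hC hz
  rcases hS x hx with h | h | h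
  · right
    rw [h]
    exact left_mem_segment ℝ A B
  · right
    rw [h]
    exact right_mem_segment ℝ A B
  · left
    exact h

theorem INHUB (hFLAT : ST_FLAT) (hORI : ST_ORI) (hH : ST_HTEST) : ST_INHUB := by
  intro n p q M gp ap bp gq aq bq o hmax hp hq hfull hMn ho k
  have hf := hFLAT n p q M gp ap bp gq aq bq hmax hp hq hfull o
  have hM : (2 : ℤ) ≤ M := by have := hp.two; exact_mod_cast this
  have h1 := hull_edge (A := p (gp k)) (B := p (gp (k + 1))) (by
    rintro x ⟨j, rfl⟩
    obtain ⟨t, ht⟩ : ∃ t : ℤ, k ≤ j + t * M ∧ j + t * M < k + M := by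
      refine ⟨-((j - k) / M), ?_, ?_⟩
      · have := Int.emod_nonneg (j - k) (by omega : (M : ℤ) ≠ 0)
        have h2 := Int.emod_add_mul_ediv (j - k) M
        nlinarith
      · have := Int.emod_lt_of_pos (j - k) (by omega : (0 : ℤ) < M)
        have h2 := Int.emod_add_mul_ediv (j - k) M
        nlinarith
    have hgt : gp (j + t * M) = gp j := by
      have hper : Function.Periodic gp (M : ℤ) := fun x => hp.gper x
      exact (hper.int_mul t) j
    show p (gp j) = p (gp k) ∨ p (gp j) = p (gp (k + 1)) ∨
      0 < crs (p (gp k) - p (gp j)) (p (gp (k + 1)) - p (gp j))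
    rw [← hgt]
    by_cases e1 : j + t * M = k
    · left; rw [e1]
    by_cases e2 : j + t * M = k + 1
    · right; left; rw [e2]
    right; right
    have h3 := hORI n p M gp ap bp hp k (k + 1) (j + t * M) (by omega) (by omega) (by omega)
    rw [crs_rot] at h3
    exact h3) hf
  rcases h1 with h1 | h1
  · exact h1
  · exfalso
    have h2 := hH n p q M gp ap bp gq aq bq o hmax hp hq hfull hMn ho k
    have h3 := dist_add_dist_of_mem_segment h1
    have h4 := D2 n p hp.int (gp k) (gp (k + 1))
    have h5 := arcsin_add (x := dist (p (gp k)) (p o) / (2 * 1))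
      (y := dist (p o) (p (gp (k + 1))) / (2 * 1)) (by positivity) (by positivity)
      (by rw [← add_div, h3]; linarith)
    rw [← add_div, h3] at h5
    unfold lg AX.dl at h2
    linarith

end E5
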