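import Pool.Agent.Helper71.E5.WStmts
import Pool.Agent.Helper36.E5.CGQ
import Pool.Agent.Helper29.E5.ORD
import Pool.Agent.Helper72.E5.A

/-! MP_efd95c_co, wheels: row TOURL (every closed tour of a full family). -/

set_option autoImplicit false

open scoped MeasureTheory ENNReal
open Complex

namespace E5

theorem TOURL : ST_TOURL := by
  intro n q g a b l h hl hn
  obtain ⟨m, rfl⟩ : ∃ m, n = m + 2 := ⟨n - 2, by have := h.two; omega⟩
  have hT : ∀ i, (AX.T 1 q i).Nonempty := by
    intro i
    obtain ⟨k, rfl⟩ := hd_surj h i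
    exact ⟨a k, (h.mem k (a k) le_rfl (by linarith [Real.pi_pos])).2 (h.le k)⟩
  have hf : l = List.ofFn (fun k : Fin (m + 2) => l.get (k.cast hn.symm)) := by
    apply List.ext_getElem
    · rw [List.length_ofFn, hn]
    · intro i h1 h2
      rw [List.getElem_ofFn]
      rfl
  have hfi : Function.Injective (fun k : Fin (m + 2) => l.get (k.cast hn.symm)) := by
    intro i j hij
    have h1 := (List.nodup_iff_injective_get.1 hl) hij
    exact Fin.cast_injective _ h1
  have h1 := axTOUR m 1 q (fun k : Fin (m + 2) => l.get (k.cast hn.symm)) one_pos h.inj hT hfi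
  rw [ENNReal.ofReal_le_iff_le_toReal (FIN _ _)] at h1
  have h2 : ctour q l = 2 * AX.tour (fun i j => AX.dl 1 (q i) (q j))
      (fun k : Fin (m + 2) => l.get (k.cast hn.symm)) := by
    conv_lhs => rw [hf]
    unfold ctour AX.tour
    rw [ord_zip]
    simp only [lg]
    rw [mul_add, Finset.mul_sum]
  have h3 : (μH[1] (frontier (AX.K 1 q))).toReal = per q := rfl
  rw [h3] at h1
  rw [h2]
  linarith

end E5
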